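import Mathlib
/-!
# Density of maps to topological groups in short right exact sequences
-/
set_option autoImplicit false

namespace Pool.Agent.Q16.AH

/-- A commutative diagram of maps `r' : M' → H'`, `r : M → H`, `r'' : M'' → H''` of abelian groups
with two rows: `M' → M → M''`, the second map surjective, and `H' → H → H''`, exact at `H`, the
first map continuous and the second open. -/
structure Ladder {M' M M'' H' H H'' : Type*} [AddCommGroup M'] [AddCommGroup M] [AddCommGroup M'']
    [AddCommGroup H'] [AddCommGroup H] [AddCommGroup H''] [TopologicalSpace H']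
    [TopologicalSpace H] [TopologicalSpace H''] (r' : M' →+ H') (r : M →+ H)
    (r'' : M'' →+ H'') where
  /-- `M' → M` -/
  f : M' →+ M
  /-- `M → M''` -/
  g : M →+ M''
  /-- `H' → H` -/
  fH : H' →+ H
  /-- `H → H''` -/
  gH : H →+ H''
  comm_f : ∀ x, r (f x) = fH (r' x)
  comm_g : ∀ x, r'' (g x) = gH (r x)
  surj : Function.Surjective g
  exact : ∀ h, gH h = 0 → ∃ h', fH h' = h
  cont : Continuous fH
  isOpen : IsOpenMap gH

/-- If the outer maps have dense image, so has the middle one. -/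
theorem Ladder.dense {M' M M'' H' H H'' : Type*} [AddCommGroup M'] [AddCommGroup M]
    [AddCommGroup M''] [AddCommGroup H'] [AddCommGroup H] [AddCommGroup H'']
    [TopologicalSpace H'] [TopologicalSpace H] [TopologicalSpace H''] [ContinuousAdd H]
    {r' : M' →+ H'} {r : M →+ H} {r'' : M'' →+ H''} (L : Ladder r' r r'') (h' : DenseRange r')
    (h'' : DenseRange r'') : DenseRange r := by
  rw [DenseRange, dense_iff_inter_open]
  rintro U hU ⟨u, hu⟩
  obtain ⟨_, ⟨u1, hu1, rfl⟩, ⟨m'', hm''⟩⟩ :=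
    dense_iff_inter_open.1 h'' (L.gH '' U) (L.isOpen U hU) ⟨_, u, hu, rfl⟩
  obtain ⟨m, rfl⟩ := L.surj m''
  have h1 : L.gH (u1 - r m) = 0 := by rw [map_sub, ← L.comm_g, hm'', sub_self]
  obtain ⟨x, hx⟩ := L.exact _ h1
  have h2 : IsOpen ((fun y => r m + L.fH y) ⁻¹' U) :=
    hU.preimage (continuous_const.add L.cont)
  have h3 : x ∈ (fun y => r m + L.fH y) ⁻¹' U := by
    show r m + L.fH x ∈ U
    rw [hx, add_sub_cancel]
    exact hu1
  obtain ⟨_, hy, ⟨m', rfl⟩⟩ := dense_iff_inter_open.1 h' _ h2 ⟨x, h3⟩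
  refine ⟨r (m + L.f m'), ?_, ⟨_, rfl⟩⟩
  rw [map_add, L.comm_f]
  exact hy

end Pool.Agent.Q16.AH
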